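import Pool.Agent.H86.BC2.Deg2

/-!
# Free algebras: all invertible matrices of degree two are products of elementary ones
-/

set_option autoImplicit false
set_option linter.unusedSectionVars false

namespace Pool.Agent.H86.BC2

open Pool.Agent.R941.BC (W W_sub W_ext W_le)
open Pool.Agent.H86.BCP
open Q30.FJ (cmat cmat_apply upper el el_val el_add el_inj el_zero wmat mdeg mlen)
open Matrix

section gen

variable {k R : Type} [DivisionRing k] [Ring R] [Nontrivial R] [NoZeroDivisors R] {c : k →+* R}
  {d : R → ℕ}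

theorem w_mem : cmat c (wmat k) ∈ Gen c := range_le ⟨_, rfl⟩

theorem el_mem (r : R) : el r ∈ Gen c := upper_le (show (el r : GL (Fin 2) R).1 1 0 = 0 by
  rw [el_val]; rfl)

theorem w_ent (c : k →+* R) (i j : Fin 2) :
    (cmat c (wmat k) : GL (Fin 2) R).1 i j = if i = j then 0 else 1 := by
  rw [cmat_apply]
  fin_cases i <;> fin_cases j <;> simp [wmat]

theorem mul_w (g : GL (Fin 2) R) (i : Fin 2) :
    (g * cmat c (wmat k)).1 i 0 = g.1 i 1 ∧ (g * cmat c (wmat k)).1 i 1 = g.1 i 0 := by
  rw [mul_ent, mul_ent, w_ent, w_ent, w_ent, w_ent]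
  simp

theorem mul_el (g : GL (Fin 2) R) (r : R) (i : Fin 2) :
    (g * el r).1 i 0 = g.1 i 0 ∧ (g * el r).1 i 1 = g.1 i 0 * r + g.1 i 1 := by
  rw [mul_ent, mul_ent, el_val]
  simp

/-- the column operation -/
theorem exists_op (c : k →+* R) (g : GL (Fin 2) R) (q : R) : ∃ g' : GL (Fin 2) R,
    (g' ∈ Gen c → g ∈ Gen c) ∧ g'.1 1 0 = g.1 1 0 - g.1 1 1 * q ∧ g'.1 1 1 = g.1 1 1 := by
  refine ⟨g * cmat c (wmat k) * el (-q) * cmat c (wmat k), fun h => ?_, ?_, ?_⟩
  · have h1 := mul_mem (mul_mem (mul_mem h (inv_mem (w_mem (c := c)))) (inv_mem (el_mem (c := c) (-q))))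
      (inv_mem (w_mem (c := c)))
    have h2 : g * cmat c (wmat k) * el (-q) * cmat c (wmat k) * (cmat c (wmat k))⁻¹ *
        (el (-q))⁻¹ * (cmat c (wmat k))⁻¹ = g := by group
    rwa [h2] at h1
  · rw [(mul_w _ _).1, (mul_el _ _ _).2, (mul_w _ _).1, (mul_w _ _).2]
    rw [mul_neg]
    abel
  · rw [(mul_w _ _).2, (mul_el _ _ _).1, (mul_w _ _).1]

theorem gen_top (D : Dg c d) (hP : ∀ a b x y : R, x ≠ 0 → 0 < d a → d b ≤ d a → a * x = b * y →
    ∃ q, d (a - b * q) < d a) : Gen c = ⊤ := by
  rw [eq_top_iff]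
  intro g _
  induction hN : d (g.1 1 0) + d (g.1 1 1) using Nat.strong_induction_on generalizing g with
  | _ N ih =>
    -- the case of a larger first entry
    have main : ∀ g : GL (Fin 2) R, d (g.1 1 0) + d (g.1 1 1) = N → 0 < d (g.1 1 0) →
        d (g.1 1 1) ≤ d (g.1 1 0) → g ∈ Gen c := by
      intro g hN hpos hle
      have h4 : g.1 * (↑g⁻¹ : Matrix (Fin 2) (Fin 2) R) = 1 := Units.mul_inv g
      have e10 := congrFun (congrFun h4 1) 0
      have e11 := congrFun (congrFun h4 1) 1
      have e00 := congrFun (congrFun h4 0) 0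
      rw [Matrix.mul_apply, Fin.sum_univ_two] at e10 e11 e00
      simp only [Matrix.one_apply_eq, ne_eq, one_ne_zero, not_false_eq_true,
        Matrix.one_apply_ne] at e10 e11 e00
      have hx : (↑g⁻¹ : Matrix (Fin 2) (Fin 2) R) 0 0 ≠ 0 := by
        intro h0
        rw [h0, mul_zero, zero_add] at e10 e00
        rcases mul_eq_zero.1 e10 with h1 | h1
        · rw [h1, zero_mul, add_zero] at e11
          have := D.unit e11
          omega
        · rw [h1, mul_zero] at e00
          exact zero_ne_one e00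
      obtain ⟨q, hq⟩ := hP _ _ _ (-(↑g⁻¹ : Matrix (Fin 2) (Fin 2) R) 1 0) hx hpos hle (by
        rw [mul_neg]
        exact eq_neg_of_add_eq_zero_left e10)
      obtain ⟨g', h1, h2, h3⟩ := exists_op c g q
      apply h1
      refine ih (d (g'.1 1 0) + d (g'.1 1 1)) ?_ (Subgroup.mem_top g') rfl
      rw [h2, h3]
      omega
    by_cases h0 : d (g.1 1 0) = 0 ∧ d (g.1 1 1) = 0
    · obtain ⟨α, hα⟩ := D.mem _ h0.1
      obtain ⟨β, hβ⟩ := D.mem _ h0.2
      by_cases hb : β = 0
      · have h1 : g * cmat c (wmat k) ∈ upper R := by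
          show (g * cmat c (wmat k)).1 1 0 = 0
          rw [(mul_w _ _).1, ← hβ, hb, map_zero]
        have h2 := mul_mem (upper_le (c := c) h1) (inv_mem (w_mem (c := c)))
        rwa [mul_inv_cancel_right] at h2
      · obtain ⟨g', h1, h2, h3⟩ := exists_op c g (c (β⁻¹ * α))
        apply h1
        apply upper_le
        show g'.1 1 0 = 0
        rw [h2, ← hα, ← hβ, ← map_mul, ← mul_assoc, mul_inv_cancel₀ hb, one_mul, sub_self]
    · by_cases hle : d (g.1 1 1) ≤ d (g.1 1 0)
      · exact main g hN (by omega) hle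
      · have h1 : g * cmat c (wmat k) ∈ Gen c := by
          refine main _ ?_ ?_ ?_
          · rw [(mul_w _ _).1, (mul_w _ _).2]
            omega
          · rw [(mul_w _ _).1]
            omega
          · rw [(mul_w _ _).1, (mul_w _ _).2]
            omega
        have h2 := mul_mem h1 (inv_mem (w_mem (c := c)))
        rwa [mul_inv_cancel_right] at h2

/-- matrices generated by constants and elementary matrices -/
theorem elem_le : Q30.FJ.DR.Elem c ≤ Gen c := by
  unfold Q30.FJ.DR.Elem
  rw [Subgroup.closure_le]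
  rintro g (⟨h, hh⟩ | ⟨i, j, r, hij, hg⟩)
  · apply range_le
    refine ⟨h, Units.ext ?_⟩
    ext i j
    exact (hh i j).symm
  · have hel : ∀ i j, (el r : GL (Fin 2) R).1 i j = (1 + Matrix.single (0 : Fin 2) 1 r) i j := by
      intro i j
      rw [el_val]
      fin_cases i <;> fin_cases j <;> simp [Matrix.single_apply, Matrix.one_apply]
    fin_cases i <;> fin_cases j
    · exact absurd rfl hij
    · have h1 : g = el r := by
        apply Units.ext
        ext i j
        rw [hg]
        exact (hel i j).symm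
      rw [h1]
      exact el_mem r
    · have h1 : g = cmat c (wmat k) * el r * cmat c (wmat k) := by
        apply Units.ext
        ext i j
        rw [hg]
        have h2 : ∀ j, (cmat c (wmat k) * el r * cmat c (wmat k)).1 i j =
            if j = 0 then (cmat c (wmat k) * el r).1 i 1 else (cmat c (wmat k) * el r).1 i 0 := by
          intro j
          fin_cases j
          · exact (mul_w _ _).1
          · exact (mul_w _ _).2
        rw [h2, (mul_el _ _ _).1, (mul_el _ _ _).2, w_ent, w_ent]
        fin_cases i <;> fin_cases j <;> simp [Matrix.single_apply, Matrix.one_apply]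
      rw [h1]
      exact mul_mem (mul_mem w_mem (el_mem r)) w_mem
    · exact absurd rfl hij

end gen

end Pool.Agent.H86.BC2
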