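import Pool.Agent.H86.BC2.Multi
import Pool.Graph.R_pool_sql_team_seeded_3997aac3.Q30.FJ.Lin2M

/-!
# Linear groups of degree two over rings with a degree function: the tree
-/

set_option autoImplicit false
set_option linter.unusedSectionVars false

namespace Pool.Agent.H86.BC2

open Pool.Agent.R941.BC (W W_sub W_ext W_le)
open Pool.Agent.H86.BCP
open Pool.Agent.H34.PT (Deg)
open Q30.FJ (cmat cmat_apply upper el el_val el_add el_inj)
open Matrix

/-- `d` is a degree function on the ring `R`, and the elements of degree zero are those of the division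
ring `k` -/
structure Dg {k R : Type} [DivisionRing k] [Ring R] (c : k →+* R) (d : R → ℕ) : Prop where
  const : ∀ a, d (c a) = 0
  mem : ∀ r, d r = 0 → ∃ a, c a = r
  add : ∀ r s, d (r + s) ≤ max (d r) (d s)
  mul : ∀ r s, r ≠ 0 → s ≠ 0 → d (r * s) = d r + d s

variable {k R : Type} [DivisionRing k] [Ring R] [Nontrivial R] [NoZeroDivisors R] {c : k →+* R}
  {d : R → ℕ}

namespace Dg

variable (D : Dg c d)

include D

omit [Nontrivial R] [NoZeroDivisors R] in
theorem zero : d 0 = 0 := by rw [← map_zero c, D.const]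

omit [Nontrivial R] [NoZeroDivisors R] in
theorem one : d 1 = 0 := by rw [← map_one c, D.const]

omit [NoZeroDivisors R] in
theorem cmul (a : k) (r : R) : d (c a * r) ≤ d r := by
  by_cases h : c a = 0
  · rw [h, zero_mul, D.zero]
    exact Nat.zero_le _
  · by_cases hr : r = 0
    · rw [hr, mul_zero]
    · rw [D.mul _ _ h hr, D.const, zero_add]

omit [NoZeroDivisors R] in
theorem mulc (a : k) (r : R) : d (r * c a) ≤ d r := by
  by_cases h : c a = 0
  · rw [h, mul_zero, D.zero]
    exact Nat.zero_le _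
  · by_cases hr : r = 0
    · rw [hr, zero_mul]
    · rw [D.mul _ _ hr h, D.const, add_zero]

omit [NoZeroDivisors R] in
theorem neg (r : R) : d (-r) = d r := by
  have h : ∀ r, d (-r) ≤ d r := fun r => by
    have h1 : -r = c (-1) * r := by rw [map_neg, map_one, neg_one_mul]
    rw [h1]
    exact D.cmul _ _
  exact le_antisymm (h r) (by have h1 := h (-r); rwa [neg_neg] at h1)

omit [NoZeroDivisors R] in
theorem add_lt {r s : R} (h : d s < d r) : d (r + s) = d r := by
  apply le_antisymm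
  · exact (D.add r s).trans (max_le le_rfl h.le)
  · have h1 := D.add (r + s) (-s)
    rw [add_neg_cancel_right, D.neg] at h1
    rcases le_max_iff.1 h1 with h2 | h2
    · exact h2
    · omega

/-- units have degree zero -/
theorem unit {r s : R} (h : r * s = 1) : d r = 0 := by
  have hr : r ≠ 0 := by
    rintro rfl
    rw [zero_mul] at h
    exact zero_ne_one h
  have hs : s ≠ 0 := by
    rintro rfl
    rw [mul_zero] at h
    exact zero_ne_one h
  have h1 := D.mul r s hr hs
  rw [h, D.one] at h1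
  omega

omit D [NoZeroDivisors R] in
theorem exists_proj (c : k →+* R) : ∃ p : R →+ k, (∀ a r, p (c a * r) = a * p r) ∧
    ∀ a, p (c a) = a := by
  let _ : Module k R := Module.compHom R c
  let l : k →ₗ[k] R :=
    { toFun := c
      map_add' := map_add c
      map_smul' := fun a b => by
        show c (a * b) = c a * c b
        exact map_mul c a b }
  obtain ⟨p, hp⟩ := l.exists_leftInverse_of_injective
    (LinearMap.ker_eq_bot.2 (show Function.Injective l from c.injective))
  refine ⟨p.toAddMonoidHom, fun a r => ?_, fun a => ?_⟩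
  · exact p.map_smul a r
  · exact LinearMap.congr_fun hp a

omit D in
/-- matrices with constant entries -/
theorem mem_range {g : GL (Fin 2) R} (h : ∀ i j, ∃ a, c a = g.1 i j) : g ∈ (cmat c).range := by
  obtain ⟨p, hp, hp1⟩ := exists_proj c
  choose a ha using h
  let A : Matrix (Fin 2) (Fin 2) k := fun i j => a i j
  let H : Matrix (Fin 2) (Fin 2) k := fun i j => p ((↑g⁻¹ : Matrix (Fin 2) (Fin 2) R) i j)
  have hA : c.mapMatrix A = g.1 := by
    ext i j
    exact ha i j
  have h1 : A * H = 1 := by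
    refine Matrix.ext fun i j => ?_
    rw [Matrix.mul_apply]
    have h2 : ∑ l, A i l * H l j = p (∑ l, c (A i l) * (↑g⁻¹ : Matrix (Fin 2) (Fin 2) R) l j) := by
      rw [map_sum]
      exact Finset.sum_congr rfl fun l _ => (hp _ _).symm
    rw [h2]
    have h3 : ∑ l, c (A i l) * (↑g⁻¹ : Matrix (Fin 2) (Fin 2) R) l j =
        (g.1 * (↑g⁻¹ : Matrix (Fin 2) (Fin 2) R)) i j := by
      rw [Matrix.mul_apply, ← hA]
      rfl
    rw [h3, Units.mul_inv, Matrix.one_apply, Matrix.one_apply]
    split_ifs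
    · rw [← map_one c, hp1]
    · exact map_zero p
  have h2 : g.1 * c.mapMatrix H = 1 := by rw [← hA, ← map_mul, h1, map_one]
  have h3 : c.mapMatrix H = (↑g⁻¹ : Matrix (Fin 2) (Fin 2) R) := by
    have h4 : (↑g⁻¹ : Matrix (Fin 2) (Fin 2) R) * (g.1 * c.mapMatrix H) = ↑g⁻¹ := by
      rw [h2, mul_one]
    rw [← mul_assoc, Units.inv_mul, one_mul] at h4
    exact h4
  have hinj : Function.Injective (c.mapMatrix : Matrix (Fin 2) (Fin 2) k →+* _) := by
    intro x y hxy
    ext i j
    exact c.injective (congrFun (congrFun hxy i) j)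
  have h5 : H * A = 1 := by
    apply hinj
    rw [map_mul, h3, hA, map_one]
    exact Units.inv_mul g
  exact ⟨⟨A, H, h1, h5⟩, Units.ext hA⟩

end Dg

/-- the degree of the matrix -/
noncomputable def nn (d : R → ℕ) (g : GL (Fin 2) R) : ℕ :=
  max (max (d (g.1 0 0)) (d (g.1 1 0))) (max (d (g.1 0 1)) (d (g.1 1 1))) + 1

/-- the degree of the first column -/
noncomputable def mm (d : R → ℕ) (g : GL (Fin 2) R) : ℕ := max (d (g.1 0 0)) (d (g.1 1 0)) + 1

omit [Nontrivial R] [NoZeroDivisors R] in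
theorem nn_le {g : GL (Fin 2) R} {n : ℕ} : nn d g ≤ n + 1 ↔ ∀ i j, d (g.1 i j) ≤ n := by
  unfold nn
  constructor
  · intro h i j
    fin_cases i <;> fin_cases j <;> simp <;> omega
  · intro h
    have h00 := h 0 0
    have h01 := h 0 1
    have h10 := h 1 0
    have h11 := h 1 1
    omega

omit [Nontrivial R] [NoZeroDivisors R] in
theorem le_nn (g : GL (Fin 2) R) (i j : Fin 2) : d (g.1 i j) + 1 ≤ nn d g := by
  obtain ⟨n, hn⟩ : ∃ n, nn d g = n + 1 := ⟨_, rfl⟩
  rw [hn]
  exact Nat.succ_le_succ (nn_le.1 hn.le i j)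

omit [Nontrivial R] [NoZeroDivisors R] in
theorem mm_le {g : GL (Fin 2) R} {n : ℕ} : mm d g ≤ n + 1 ↔ ∀ i, d (g.1 i 0) ≤ n := by
  unfold mm
  constructor
  · intro h i
    fin_cases i <;> simp <;> omega
  · intro h
    have h00 := h 0
    have h10 := h 1
    omega

omit [Nontrivial R] [NoZeroDivisors R] in
theorem le_mm (g : GL (Fin 2) R) (i : Fin 2) : d (g.1 i 0) + 1 ≤ mm d g := by
  obtain ⟨n, hn⟩ : ∃ n, mm d g = n + 1 := ⟨_, rfl⟩
  rw [hn]
  exact Nat.succ_le_succ (mm_le.1 hn.le i)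

omit [Nontrivial R] [NoZeroDivisors R] in
theorem mul_ent (g h : GL (Fin 2) R) (i j : Fin 2) :
    (g * h).1 i j = g.1 i 0 * h.1 0 j + g.1 i 1 * h.1 1 j := by
  rw [Units.val_mul, Matrix.mul_apply, Fin.sum_univ_two]

theorem diag_unit {e : GL (Fin 2) R} (he : e ∈ upper R) :
    e.1 0 0 * (↑e⁻¹ : Matrix (Fin 2) (Fin 2) R) 0 0 = 1 ∧
      e.1 1 1 * (↑e⁻¹ : Matrix (Fin 2) (Fin 2) R) 1 1 = 1 := by
  have he0 : e.1 1 0 = 0 := he
  have h6 : (↑e⁻¹ : Matrix (Fin 2) (Fin 2) R) 1 0 = 0 := (upper R).inv_mem he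
  have h4 : e.1 * (↑e⁻¹ : Matrix (Fin 2) (Fin 2) R) = 1 := Units.mul_inv e
  constructor
  · have h5 := congrFun (congrFun h4 0) 0
    rw [Matrix.mul_apply, Fin.sum_univ_two, h6] at h5
    simpa using h5
  · have h5 := congrFun (congrFun h4 1) 1
    rw [Matrix.mul_apply, Fin.sum_univ_two, he0] at h5
    simpa using h5

variable (D : Dg c d)

include D

omit [NoZeroDivisors R] in
theorem nn_mul_le (g : GL (Fin 2) R) {a : GL (Fin 2) R} (ha : a ∈ (cmat c).range) :
    nn d (g * a) ≤ nn d g := by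
  obtain ⟨a, rfl⟩ := ha
  obtain ⟨n, hn⟩ : ∃ n, nn d g = n + 1 := ⟨_, rfl⟩
  rw [hn, nn_le]
  intro i j
  rw [mul_ent, cmat_apply, cmat_apply]
  have h1 := nn_le.1 hn.le
  exact (D.add _ _).trans (max_le ((D.mulc _ _).trans (h1 i 0)) ((D.mulc _ _).trans (h1 i 1)))

omit [NoZeroDivisors R] in
theorem nn_mul (g : GL (Fin 2) R) {a : GL (Fin 2) R} (ha : a ∈ (cmat c).range) :
    nn d (g * a) = nn d g := by
  apply le_antisymm (nn_mul_le D g ha)
  have h1 := nn_mul_le D (g * a) (inv_mem ha)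
  rwa [mul_inv_cancel_right] at h1

theorem mm_mul_le (g : GL (Fin 2) R) {e : GL (Fin 2) R} (he : e ∈ upper R) :
    mm d (g * e) ≤ mm d g := by
  obtain ⟨n, hn⟩ : ∃ n, mm d g = n + 1 := ⟨_, rfl⟩
  rw [hn, mm_le]
  intro i
  have he0 : e.1 1 0 = 0 := he
  obtain ⟨u, hu⟩ := D.mem _ (D.unit (diag_unit he).1)
  rw [mul_ent, he0, mul_zero, add_zero, ← hu]
  exact (D.mulc _ _).trans (mm_le.1 hn.le i)

theorem mm_mul (g : GL (Fin 2) R) {e : GL (Fin 2) R} (he : e ∈ upper R) :
    mm d (g * e) = mm d g := by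
  apply le_antisymm (mm_mul_le D g he)
  have h1 := mm_mul_le D (g * e) ((upper R).inv_mem he)
  rwa [mul_inv_cancel_right] at h1

theorem uE {g a : GL (Fin 2) R} (hg : mm d g < nn d g) (ha : a ∈ (cmat c).range)
    (h : mm d (g * a) < nn d g) : a ∈ upper R := by
  obtain ⟨a, rfl⟩ := ha
  by_contra hcon
  have hne : c (a.1 1 0) ≠ 0 := hcon
  have h1 : ∃ i, d (g.1 i 1) + 1 = nn d g := by
    by_contra hc
    push Not at hc
    have h0 := hc 0
    have h1 := hc 1
    unfold nn at *
    unfold mm at hg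
    omega
  obtain ⟨i, hi⟩ := h1
  have h2 := le_mm (d := d) g i
  have h3 := le_mm (d := d) (g * cmat c a) i
  have h4 : g.1 i 1 ≠ 0 := by
    intro h0
    rw [h0, D.zero] at hi
    omega
  have h5 : d (g.1 i 1 * c (a.1 1 0)) = d (g.1 i 1) := by
    rw [D.mul _ _ h4 hne, D.const, add_zero]
  have h6 : d (g.1 i 0 * c (a.1 0 0)) < d (g.1 i 1 * c (a.1 1 0)) := by
    have := D.mulc (a.1 0 0) (g.1 i 0)
    omega
  have h7 := D.add_lt h6
  have h8 : d (g.1 i 0 * c (a.1 0 0) + g.1 i 1 * c (a.1 1 0)) = d (g.1 i 1) := by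
    rw [add_comm, h7, h5]
  rw [mul_ent, cmat_apply, cmat_apply, h8] at h3
  omega

theorem uA {g e : GL (Fin 2) R} (hg : nn d g = mm d g) (he : e ∈ upper R)
    (h : nn d (g * e) = mm d g) : e ∈ (cmat c).range := by
  have he0 : e.1 1 0 = 0 := he
  obtain ⟨hu0, hu1⟩ := diag_unit he
  obtain ⟨u, hu⟩ := D.mem _ (D.unit hu0)
  obtain ⟨v, hv⟩ := D.mem _ (D.unit hu1)
  have hd : d (e.1 0 1) = 0 := by
    by_contra hcon
    have hne : e.1 0 1 ≠ 0 := by
      intro h0
      rw [h0, D.zero] at hcon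
      exact hcon rfl
    have h1 : ∃ i, d (g.1 i 0) + 1 = mm d g ∧ g.1 i 0 ≠ 0 := by
      by_contra hc
      push Not at hc
      have hz : ∀ i, g.1 i 0 = 0 ∨ d (g.1 i 0) + 1 ≠ mm d g := by
        intro i
        by_cases h2 : d (g.1 i 0) + 1 = mm d g
        · exact Or.inl (hc i h2)
        · exact Or.inr h2
      have hall : ∀ i, g.1 i 0 = 0 := by
        have e0 : d (g.1 0 0) = 0 ∨ d (g.1 0 0) + 1 ≠ mm d g := (hz 0).imp (fun h => by
          rw [h, D.zero]) id
        have e1 : d (g.1 1 0) = 0 ∨ d (g.1 1 0) + 1 ≠ mm d g := (hz 1).imp (fun h => by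
          rw [h, D.zero]) id
        have hm : mm d g = 1 := by
          unfold mm at *
          omega
        intro i
        rcases hz i with h3 | h3
        · exact h3
        · have h4 := le_mm (d := d) g i
          omega
      have h5 : (↑g⁻¹ : Matrix (Fin 2) (Fin 2) R) * g.1 = 1 := Units.inv_mul g
      have h6 := congrFun (congrFun h5 0) 0
      rw [Matrix.mul_apply, Fin.sum_univ_two, hall, hall] at h6
      simp at h6
    obtain ⟨i, hi, hi0⟩ := h1
    have h2 := D.mul _ _ hi0 hne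
    have h3 := D.mulc v (g.1 i 1)
    have h4 := le_nn (d := d) g i 1
    have h5 := le_nn (d := d) (g * e) i 1
    rw [mul_ent, ← hv, D.add_lt (by omega), h2] at h5
    omega
  obtain ⟨w, hw⟩ := D.mem _ hd
  apply Dg.mem_range
  intro i j
  fin_cases i <;> fin_cases j
  · exact ⟨u, hu⟩
  · exact ⟨w, hw⟩
  · exact ⟨0, by rw [map_zero]; exact he0.symm⟩
  · exact ⟨v, hv⟩

omit D in
/-- the group generated by the constant and the upper triangular matrices -/
def Gen (c : k →+* R) : Subgroup (GL (Fin 2) R) :=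
  Subgroup.closure (((cmat c).range : Set (GL (Fin 2) R)) ∪ upper R)

omit D in
theorem range_le : (cmat c).range ≤ Gen c := fun _ h => Subgroup.subset_closure (Or.inl h)

omit D in
theorem upper_le : upper R ≤ Gen c := fun _ h => Subgroup.subset_closure (Or.inr h)

theorem deg : Deg ((cmat c).range.subgroupOf (Gen c)) ((upper R).subgroupOf (Gen c))
    (fun g => nn d g.1) (fun g => mm d g.1) where
  nA g a ha := nn_mul D g.1 ha
  mE g e he := mm_mul D g.1 he
  le g := by
    show mm d g.1 ≤ nn d g.1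
    unfold mm nn
    omega
  pos g := by
    show 1 ≤ mm d g.1
    unfold mm
    omega
  base g hg := by
    show g.1 ∈ (cmat c).range
    apply Dg.mem_range
    intro i j
    exact D.mem _ (Nat.le_zero.1 (nn_le.1 hg i j))
  base' := by
    show nn d ((1 : Gen c) : GL (Fin 2) R) ≤ 0 + 1
    rw [nn_le]
    intro i j
    show d ((1 : Matrix (Fin 2) (Fin 2) R) i j) ≤ 0
    rw [Matrix.one_apply]
    split_ifs
    · rw [D.one]
    · rw [D.zero]
  uE g hg a ha h := uE D hg ha h
  uA g hg e he h := uA D hg he h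
  gen g := by
    obtain ⟨g, hg⟩ := g
    have key : ∀ (x : GL (Fin 2) R) (hx : x ∈ Gen c),
        (⟨x, hx⟩ : Gen c) ∈ Subgroup.closure
          (((cmat c).range.subgroupOf (Gen c) : Set (Gen c)) ∪ (upper R).subgroupOf (Gen c)) := by
      intro x hx
      induction hx using Subgroup.closure_induction with
      | mem x h =>
        refine Subgroup.subset_closure ?_
        rcases h with h | h
        · exact Or.inl h
        · exact Or.inr h
      | one => exact one_mem _
      | mul x y hx hy h1 h2 => exact mul_mem h1 h2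
      | inv x hx h1 => exact inv_mem h1
    exact key g hg

variable {B : ∀ (G : Type) [Group G], Prop}

omit D in
theorem W_const (hK : W B (GL (Fin 2) k)) : W B (cmat (R := R) c).range := by
  have hi : Function.Injective (cmat (R := R) c) := by
    intro g h hgh
    apply Units.ext
    ext i j
    exact c.injective (congrArg (fun x : GL (Fin 2) R => (x : Matrix (Fin 2) (Fin 2) R) i j) hgh)
  exact W_sub _ _ (MonoidHom.ofInjective hi).symm.toMonoidHom
    (MonoidHom.ofInjective hi).symm.injective hK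

omit D in
/-- the diagonal part of an upper triangular matrix -/
def dia (e : upper R) : GL (Fin 2) R where
  val := !![e.1.1 0 0, 0; 0, e.1.1 1 1]
  inv := !![(↑e.1⁻¹ : Matrix (Fin 2) (Fin 2) R) 0 0, 0; 0, (↑e.1⁻¹ : Matrix (Fin 2) (Fin 2) R) 1 1]
  val_inv := by
    obtain ⟨h1, h2⟩ := diag_unit e.2
    rw [Matrix.mul_fin_two]
    ext i j
    fin_cases i <;> fin_cases j <;> simp [h1, h2]
  inv_val := by
    obtain ⟨h1, h2⟩ := diag_unit ((upper R).inv_mem e.2)
    rw [inv_inv] at h1 h2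
    rw [Matrix.mul_fin_two]
    ext i j
    fin_cases i <;> fin_cases j <;> simp [h1, h2]

theorem W_upper (h : InheritBC B) (hK : W B (GL (Fin 2) k)) : W B (upper R) := by
  have hmem : ∀ e : upper R, dia e ∈ (cmat c).range := by
    intro e
    obtain ⟨h1, h2⟩ := diag_unit e.2
    obtain ⟨u, hu⟩ := D.mem _ (D.unit h1)
    obtain ⟨v, hv⟩ := D.mem _ (D.unit h2)
    apply Dg.mem_range
    intro i j
    fin_cases i <;> fin_cases j
    · exact ⟨u, hu⟩
    · exact ⟨0, map_zero c⟩
    · exact ⟨0, map_zero c⟩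
    · exact ⟨v, hv⟩
  let δ : upper R →* (cmat (R := R) c).range := MonoidHom.mk' (fun e => ⟨dia e, hmem e⟩) (by
    intro e f
    apply Subtype.ext
    apply Units.ext
    have he : e.1.1 1 0 = 0 := e.2
    have hf : f.1.1 1 0 = 0 := f.2
    show !![(e.1 * f.1).1 0 0, 0; 0, (e.1 * f.1).1 1 1] =
      !![e.1.1 0 0, 0; 0, e.1.1 1 1] * !![f.1.1 0 0, 0; 0, f.1.1 1 1]
    rw [Matrix.mul_fin_two, mul_ent, mul_ent, he, hf]
    ext i j
    fin_cases i <;> fin_cases j <;> simp)
  refine W_hom h δ (W_solv h _ (Group.isSolvable_of_comm ?_)) (W_const hK)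
  have key : ∀ a : δ.ker, a.1.1.1 0 0 = 1 ∧ a.1.1.1 1 1 = 1 ∧ a.1.1.1 1 0 = 0 := by
    intro a
    have h1 : dia a.1 = 1 := congrArg Subtype.val a.2
    have h2 := congrArg (fun z : GL (Fin 2) R => z.1) h1
    refine ⟨?_, ?_, a.1.2⟩
    · exact congrFun (congrFun h2 0) 0
    · exact congrFun (congrFun h2 1) 1
  intro a b
  obtain ⟨a1, a2, a3⟩ := key a
  obtain ⟨b1, b2, b3⟩ := key b
  apply Subtype.ext
  apply Subtype.ext
  apply Units.ext
  show (a.1.1 * b.1.1).1 = (b.1.1 * a.1.1).1
  ext i j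
  rw [mul_ent, mul_ent]
  fin_cases i <;> fin_cases j <;> simp [a1, a2, a3, b1, b2, b3, add_comm]

theorem treeIn (h : InheritBC B) (hK : W B (GL (Fin 2) k)) : TreeIn B (Gen c) := by
  refine treeIn_of_deg (deg D) ?_ ?_
  · exact W_sub _ _ (MonoidHom.mk' (fun g : (cmat c).range.subgroupOf (Gen c) =>
      (⟨g.1.1, g.2⟩ : (cmat (R := R) c).range)) fun _ _ => rfl)
      (fun x y hxy => Subtype.ext (Subtype.ext (congrArg
        (fun z : (cmat (R := R) c).range => (z : GL (Fin 2) R)) hxy))) (W_const hK)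
  · exact W_sub _ _ (MonoidHom.mk' (fun g : (upper R).subgroupOf (Gen c) =>
      (⟨g.1.1, g.2⟩ : upper R)) fun _ _ => rfl)
      (fun x y hxy => Subtype.ext (Subtype.ext (congrArg
        (fun z : upper R => (z : GL (Fin 2) R)) hxy))) (W_upper D h hK)

end Pool.Agent.H86.BC2
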