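import Pool.Agent.H86.BC2.Cohn

/-!
# The weak algorithm of the free algebra
-/

set_option autoImplicit false
set_option linter.unusedSectionVars false

namespace Pool.Agent.H86.BC2

open Pool.Agent.R941.BC (W W_sub W_ext W_le)
open Pool.Agent.H86.BCP
open Q30.FJ (mlen mdeg mlen_mul mlen_one le_mdeg mdeg_le mdeg_spec mdeg_mul monDR)

variable {k X : Type} [DivisionRing k]

/-- the free algebra -/
abbrev FA (k X : Type) [DivisionRing k] : Type := MonoidAlgebra k (FreeMonoid X)

/-- the length of a word -/
def len (X : Type) : FreeMonoid X →* Multiplicative ℕ :=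
  FreeMonoid.lift fun _ => Multiplicative.ofAdd 1

theorem mlen_of (x : X) : mlen (len X) (FreeMonoid.of x) = 1 := by
  unfold mlen len
  rw [FreeMonoid.lift_eval_of]
  rfl

theorem mlen_eq (w : FreeMonoid X) : mlen (len X) w = (FreeMonoid.toList w).length := by
  induction w using FreeMonoid.recOn with
  | one => rw [mlen_one]; rfl
  | of_mul x w ih =>
    rw [mlen_mul, mlen_of, ih]
    show 1 + _ = (x :: FreeMonoid.toList w).length
    rw [List.length_cons, add_comm]

instance : NoZeroDivisors (FA k X) := inferInstance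

/-- the degree -/
noncomputable def fdeg (r : FA k X) : ℕ := mdeg (len X) r

theorem dg : Dg (MonoidAlgebra.singleOneRingHom : k →+* FA k X) fdeg := by
  have hl : ∀ m : FreeMonoid X, len X m = 1 → m = 1 := by
    intro m hm
    have h1 : mlen (len X) m = 0 := hm
    rw [mlen_eq, List.length_eq_zero_iff] at h1
    exact h1
  let P := monDR (A := k) (l := len X) hl
  refine ⟨P.deg_c, fun r hr => ?_, P.deg_add_le, P.deg_mul⟩
  refine ⟨r.coeff 1, ?_⟩
  by_contra hne
  have h1 : (MonoidAlgebra.singleOneRingHom (r.coeff 1) : FA k X) - r ≠ 0 := sub_ne_zero.2 hne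
  have h2 : ((MonoidAlgebra.singleOneRingHom (r.coeff 1) : FA k X) - r).coeff 1 = 0 := by
    show (MonoidAlgebra.single 1 (r.coeff 1) : FA k X).coeff 1 - r.coeff 1 = 0
    rw [MonoidAlgebra.coeff_single, Finsupp.single_eq_same, sub_self]
  have h3 := P.deg_pos _ h2 h1
  obtain ⟨m, hm, h4⟩ := mdeg_spec (l := len X) h1
  have h5 : m = 1 := by
    by_contra hm1
    have h6 : ((MonoidAlgebra.singleOneRingHom (r.coeff 1) : FA k X) - r).coeff m =
        (MonoidAlgebra.single 1 (r.coeff 1) : FA k X).coeff m - r.coeff m := rfl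
    rw [h6, MonoidAlgebra.coeff_single, Finsupp.single_eq_of_ne hm1, zero_sub, neg_ne_zero] at hm
    have h7 : mlen (len X) m ≤ 0 := hr ▸ le_mdeg hm
    exact hm1 (hl m (Nat.le_zero.1 h7))
  rw [h5] at hm
  exact hm h2

/-- the words of `r` which end with `x`, with this letter removed -/
noncomputable def der (x : X) : FA k X →+ FA k X where
  toFun r := MonoidAlgebra.ofCoeff (r.coeff.comapDomain (fun w => w * FreeMonoid.of x)
    (mul_left_injective _).injOn)
  map_zero' := by
    apply MonoidAlgebra.coeff_injective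
    ext w
    rfl
  map_add' r s := by
    apply MonoidAlgebra.coeff_injective
    ext w
    rfl

theorem der_coeff (x : X) (r : FA k X) (w : FreeMonoid X) :
    (der x r).coeff w = r.coeff (w * FreeMonoid.of x) := rfl

theorem split (w : FreeMonoid X) : w = 1 ∨ ∃ v y, w = v * FreeMonoid.of y := by
  rcases List.eq_nil_or_concat (FreeMonoid.toList w) with h | ⟨v, y, h⟩
  · exact Or.inl h
  · right
    refine ⟨FreeMonoid.ofList v, y, ?_⟩
    rw [List.concat_eq_append] at h
    exact h

theorem mul_of_inj {v w : FreeMonoid X} {x y : X}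
    (h : v * FreeMonoid.of x = w * FreeMonoid.of y) : v = w ∧ x = y := by
  have h1 : FreeMonoid.toList v ++ [x] = FreeMonoid.toList w ++ [y] := h
  have h2 := List.append_inj' h1 rfl
  exact ⟨h2.1, by simpa using h2.2⟩

theorem mul_of_ne (v : FreeMonoid X) (x : X) : v * FreeMonoid.of x ≠ 1 := by
  intro h
  have h1 : FreeMonoid.toList v ++ [x] = [] := h
  simp at h1

theorem der_single (x : X) (v : FreeMonoid X) (a : k) :
    der x (MonoidAlgebra.single (v * FreeMonoid.of x) a) = MonoidAlgebra.single v a := by
  classical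
  apply MonoidAlgebra.coeff_injective
  ext w
  rw [der_coeff, MonoidAlgebra.coeff_single, MonoidAlgebra.coeff_single, Finsupp.single_apply,
    Finsupp.single_apply]
  by_cases h : v = w
  · rw [if_pos h, if_pos (by rw [h])]
  · rw [if_neg h, if_neg (fun h1 => h (mul_of_inj h1).1)]

theorem der_single_ne {x y : X} (h : y ≠ x) (v : FreeMonoid X) (a : k) :
    der x (MonoidAlgebra.single (v * FreeMonoid.of y) a) = 0 := by
  classical
  apply MonoidAlgebra.coeff_injective
  ext w
  rw [der_coeff, MonoidAlgebra.coeff_single, Finsupp.single_apply,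
    if_neg (fun h1 => h (mul_of_inj h1).2)]
  rfl

theorem der_single_one (x : X) (a : k) :
    der x (MonoidAlgebra.single 1 a) = 0 := by
  classical
  apply MonoidAlgebra.coeff_injective
  ext w
  rw [der_coeff, MonoidAlgebra.coeff_single, Finsupp.single_apply,
    if_neg (fun h1 => mul_of_ne _ _ h1.symm)]
  rfl

theorem der_mul_single (x : X) (r : FA k X) (v : FreeMonoid X) (b : k) :
    der x (r * MonoidAlgebra.single v b) = r * der x (MonoidAlgebra.single v b) +
      der x r * MonoidAlgebra.single 1 ((MonoidAlgebra.single v b : FA k X).coeff 1) := by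
  classical
  rcases split v with rfl | ⟨u, y, rfl⟩
  · rw [der_single_one, mul_zero, zero_add, MonoidAlgebra.coeff_single, Finsupp.single_eq_same]
    apply MonoidAlgebra.coeff_injective
    ext w
    rw [der_coeff, MonoidAlgebra.coeff_mul_single_one, MonoidAlgebra.coeff_mul_single_one,
      der_coeff]
  · rw [MonoidAlgebra.coeff_single, Finsupp.single_eq_of_ne (mul_of_ne _ _).symm,
      MonoidAlgebra.single_zero, mul_zero, add_zero]
    induction r using MonoidAlgebra.induction_linear with
    | zero => simp
    | add f g hf hg => rw [add_mul, map_add, hf, hg, add_mul]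
    | single w a =>
      rw [MonoidAlgebra.single_mul_single, ← mul_assoc]
      by_cases h : y = x
      · rw [h, der_single, der_single, MonoidAlgebra.single_mul_single]
      · rw [der_single_ne h, der_single_ne h, mul_zero]

theorem der_mul (x : X) (r s : FA k X) :
    der x (r * s) = r * der x s + der x r * MonoidAlgebra.single 1 (s.coeff 1) := by
  induction s using MonoidAlgebra.induction_linear with
  | zero => simp
  | add f g hf hg =>
    have h1 : (f + g).coeff 1 = f.coeff 1 + g.coeff 1 := rfl
    rw [mul_add, map_add, hf, hg, map_add, h1, MonoidAlgebra.single_add]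
    noncomm_ring
  | single v b => exact der_mul_single x r v b

theorem der_deg (x : X) (r : FA k X) : fdeg (der x r) + 1 ≤ fdeg r ∨ fdeg (der x r) = 0 := by
  by_cases h : der x r = 0
  · right
    rw [h]
    exact dg.zero
  · left
    obtain ⟨w, hw, h1⟩ := mdeg_spec (l := len X) h
    have h2 : mlen (len X) (w * FreeMonoid.of x) ≤ fdeg r := le_mdeg hw
    rw [mlen_mul, mlen_of, h1] at h2
    exact h2

theorem exists_der {s : FA k X} {n : ℕ} (h : fdeg s = n + 1) : ∃ x, der x s ≠ 0 ∧
    fdeg (der x s) = n := by
  have hs : s ≠ 0 := by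
    rintro rfl
    rw [dg.zero] at h
    omega
  obtain ⟨w, hw, h1⟩ := mdeg_spec (l := len X) hs
  rcases split w with rfl | ⟨v, x, rfl⟩
  · rw [mlen_one] at h1
    have : fdeg s = 0 := h1.symm
    omega
  · have h2 : (der x s).coeff v ≠ 0 := hw
    have h3 : der x s ≠ 0 := by
      intro h0
      rw [h0] at h2
      exact h2 rfl
    refine ⟨x, h3, ?_⟩
    have h4 : mlen (len X) v ≤ fdeg (der x s) := le_mdeg h2
    rw [mlen_mul, mlen_of] at h1
    have h5 : mlen (len X) v + 1 = fdeg s := h1
    rcases der_deg x s with h6 | h6 <;> omega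

/-- **the weak algorithm** -/
theorem weak (a b : FA k X) (ha : 0 < fdeg a) (hb : fdeg b ≤ fdeg a) : ∀ (n : ℕ) (s t : FA k X),
    s ≠ 0 → fdeg s = n → fdeg (a * s - b * t) < fdeg a + fdeg s →
      ∃ q, fdeg (a - b * q) < fdeg a := by
  intro n
  induction n with
  | zero =>
    intro s t hs hn hlt
    obtain ⟨α, hα⟩ := dg.mem s hn
    have hα0 : α ≠ 0 := by
      rintro rfl
      rw [map_zero] at hα
      exact hs hα.symm
    refine ⟨t * MonoidAlgebra.singleOneRingHom α⁻¹, ?_⟩
    have h1 : a - b * (t * MonoidAlgebra.singleOneRingHom α⁻¹) =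
        (a * s - b * t) * MonoidAlgebra.singleOneRingHom α⁻¹ := by
      rw [sub_mul, ← hα, mul_assoc a, ← map_mul, mul_inv_cancel₀ hα0, map_one, mul_one, mul_assoc]
    rw [h1]
    have h2 := dg.mulc α⁻¹ (a * s - b * t)
    omega
  | succ n ih =>
    intro s t hs hn hlt
    obtain ⟨x, hx, hx1⟩ := exists_der hn
    refine ih (der x s) (der x t) hx hx1 ?_
    have h1 : a * der x s - b * der x t = der x (a * s - b * t) +
        (der x b * MonoidAlgebra.singleOneRingHom (t.coeff 1) +
          -(der x a * MonoidAlgebra.singleOneRingHom (s.coeff 1))) := by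
      rw [map_sub, der_mul, der_mul]
      show _ = _ + (der x b * MonoidAlgebra.single 1 (t.coeff 1) +
        -(der x a * MonoidAlgebra.single 1 (s.coeff 1)))
      abel
    rw [h1]
    have h2 := dg.add (der x (a * s - b * t))
      (der x b * MonoidAlgebra.singleOneRingHom (t.coeff 1) +
          -(der x a * MonoidAlgebra.singleOneRingHom (s.coeff 1)))
    have h3 := dg.add (der x b * MonoidAlgebra.singleOneRingHom (t.coeff 1))
          (-(der x a * MonoidAlgebra.singleOneRingHom (s.coeff 1)))
    rw [dg.neg] at h3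
    have h4 := dg.mulc (t.coeff 1) (der x b)
    have h5 := dg.mulc (s.coeff 1) (der x a)
    have h6 := der_deg x (a * s - b * t)
    have h7 := der_deg x a
    have h8 := der_deg x b
    omega

/-- **Cohn's theorem** for matrices of degree two over free algebras -/
theorem cohn : Gen (MonoidAlgebra.singleOneRingHom : k →+* FA k X) = ⊤ := by
  refine gen_top dg ?_
  intro a b x y hx ha hb hxy
  refine weak a b ha hb _ x y hx rfl ?_
  rw [hxy, sub_self, dg.zero]
  omega

theorem W_top_hom {B : ∀ (G : Type) [Group G], Prop} {T S : Type} [Group T] [Group S]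
    (e : T ≃* S) (h : TreeIn B T) : TreeIn B S := by
  obtain ⟨V, act, Y, h1, h2, h3, h4⟩ := h
  refine ⟨V, MulAction.compHom V e.symm.toMonoidHom, Y, h1, fun g => h2 (e.symm g),
    fun g => h3 (e.symm g), fun v => ?_⟩
  refine W_sub _ (MulAction.stabilizer T v) (MonoidHom.mk' (fun g => ⟨e.symm g.1, g.2⟩) ?_) ?_ (h4 v)
  · intro a b
    exact Subtype.ext (map_mul e.symm _ _)
  · intro a b hab
    exact Subtype.ext (e.symm.injective (congrArg Subtype.val hab))

theorem treeIn_free {B : ∀ (G : Type) [Group G], Prop} (h : InheritBC B)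
    (hK : W B (Matrix.GeneralLinearGroup (Fin 2) k)) :
    TreeIn B (Matrix.GeneralLinearGroup (Fin 2) (FA k X)) := by
  have h1 := treeIn (dg (k := k) (X := X)) h hK
  exact W_top_hom ((MulEquiv.subgroupCongr cohn).trans Subgroup.topEquiv) h1

end Pool.Agent.H86.BC2
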