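import Pool.Agent.H86.BC2.Main

/-!
# Finite families of rings with a degree function
-/

set_option autoImplicit false

namespace Pool.Agent.H86.BC2

open Pool.Agent.R941.BC (W W_sub W_ext W_le)
open Pool.Agent.H86.BCP
open Matrix

/-- finite families of rings with a degree function: no homomorphisms from the rings `R i` to other
rings are needed -/
def DegreeProducts (B : ∀ (G : Type) [Group G], Prop) : Prop :=
  ∀ (ι : Type) [Finite ι] (k R : ι → Type) [∀ i, DivisionRing (k i)] [∀ i, Ring (R i)]
    [∀ i, Nontrivial (R i)] [∀ i, NoZeroDivisors (R i)] (c : ∀ i, k i →+* R i)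
    (d : ∀ i, R i → ℕ), (∀ i, Dg (c i) (d i)) → (∀ i, W B (GL (Fin 2) (k i))) →
    ∀ (G : Type) [Group G] [Countable G] (f : ∀ i, G →* GL (Fin 2) (R i)),
      (∀ i g, f i g ∈ Gen (c i)) → W B (⨅ i, (f i).ker : Subgroup G) → B G

variable {B : ∀ (G : Type) [Group G], Prop}

theorem degreeProducts (h : InheritBC B) : DegreeProducts B := by
  intro ι _ k R _ _ _ _ c d hd hk G _ _ f hf hker
  refine products h ι (fun i => Gen (c i)) (fun i => degreeRings h (k i) (R i) (c i) (d i) (hd i)
    (hk i)) G (fun i => (f i).codRestrict (Gen (c i)) (hf i)) ?_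
  have h1 : (⨅ i, ((f i).codRestrict (Gen (c i)) (hf i)).ker : Subgroup G) =
      ⨅ i, (f i).ker := by
    congr 1
    funext i
    ext g
    rw [MonoidHom.mem_ker, MonoidHom.mem_ker]
    constructor
    · intro hg
      exact congrArg Subtype.val hg
    · intro hg
      exact Subtype.ext hg
  rw [h1]
  exact hker

end Pool.Agent.H86.BC2
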