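import Pool.Agent.H86.BC2.Free

/-!
# Matrices of degree two over rings with a degree function: definitions for the theorem
-/

set_option autoImplicit false

namespace Pool.Agent.H86.BC2

open Pool.Agent.R941.BC (W W_sub W_ext W_le)
open Pool.Agent.H86.BCP
open Matrix

/-- groups of matrices over noncommutative domains with a degree function -/
def DegreeRings (B : ∀ (G : Type) [Group G], Prop) : Prop :=
  ∀ (k R : Type) [DivisionRing k] [Ring R] [Nontrivial R] [NoZeroDivisors R] (c : k →+* R)
    (d : R → ℕ), Dg c d → W B (GL (Fin 2) k) → TreeIn B (Gen c)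

/-- `a` and `b` are right linearly dependent -/
def Dep {R : Type} [Ring R] (a b : R) : Prop := ∃ x y : R, x ≠ 0 ∧ a * x = b * y

/-- rings with division with remainder for right linearly dependent elements: all invertible matrices
are products of constant and upper triangular matrices -/
def Generation : Prop :=
  ∀ (k R : Type) [DivisionRing k] [Ring R] [Nontrivial R] [NoZeroDivisors R] (c : k →+* R)
    (d : R → ℕ), Dg c d →
    (∀ a b : R, Dep a b → 0 < d a → d b ≤ d a → ∃ q, d (a - b * q) < d a) → Gen c = ⊤

/-- free algebras over division rings (with central variables) -/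
def FreeRings (B : ∀ (G : Type) [Group G], Prop) : Prop :=
  ∀ (k X : Type) [DivisionRing k], W B (GL (Fin 2) k) →
    TreeIn B (GL (Fin 2) (MonoidAlgebra k (FreeMonoid X)))

/-- finite families of groups acting on trees -/
def Products (B : ∀ (G : Type) [Group G], Prop) : Prop :=
  ∀ (ι : Type) [Finite ι] (T : ι → Type) [∀ i, Group (T i)], (∀ i, TreeIn B (T i)) →
    ∀ (G : Type) [Group G] [Countable G] (f : ∀ i, G →* T i), W B (⨅ i, (f i).ker : Subgroup G) →
      B G

/-- finite families of free algebras over fields -/
def FreeAlgebras (B : ∀ (G : Type) [Group G], Prop) : Prop :=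
  ∀ (ι : Type) [Finite ι] (K X : ι → Type) [∀ i, Field (K i)],
    (∀ i, W B (GL (Fin 2) (K i))) →
    ∀ (G : Type) [Group G] [Countable G] (f : ∀ i, G →* GL (Fin 2) (FreeAlgebra (K i) (X i))),
      W B (⨅ i, (f i).ker : Subgroup G) → B G

variable {B : ∀ (G : Type) [Group G], Prop}

theorem degreeRings (h : InheritBC B) : DegreeRings B :=
  fun _ _ _ _ _ _ _ _ D hK => treeIn D h hK

theorem generation : Generation :=
  fun _ _ _ _ _ _ _ _ D hP => gen_top D fun a b x y hx ha hb hxy => hP a b ⟨x, y, hx, hxy⟩ ha hb

theorem freeRings (h : InheritBC B) : FreeRings B := fun _ _ _ hK => treeIn_free h hK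

theorem products (h : InheritBC B) : Products B := by
  intro ι _ T _ hT G _ _ f hk
  refine multi h T hT (MonoidHom.pi f) ?_
  have h1 : (MonoidHom.pi f).ker = ⨅ i, (f i).ker := by
    ext g
    rw [MonoidHom.mem_ker, Subgroup.mem_iInf]
    constructor
    · intro hg i
      exact congrFun hg i
    · intro hg
      funext i
      exact hg i
  rw [h1]
  exact hk

theorem freeAlgebras (h : InheritBC B) : FreeAlgebras B := by
  intro ι _ K X _ hK G _ _ f hk
  refine products h ι (fun i => GL (Fin 2) (FreeAlgebra (K i) (X i))) (fun i => ?_) G f hk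
  have e : MonoidAlgebra (K i) (FreeMonoid (X i)) ≃+* FreeAlgebra (K i) (X i) :=
    (FreeAlgebra.equivMonoidAlgebraFreeMonoid (R := K i) (X := X i)).symm.toRingEquiv
  exact W_top_hom (Units.mapEquiv e.mapMatrix.toMulEquiv) (treeIn_free h (hK i))

end Pool.Agent.H86.BC2
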