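import Pool.Agent.H86.BCP.Base
import Pool.Agent.H34.PT.Tree

/-!
# Products of groups acting on trees
-/

set_option autoImplicit false

namespace Pool.Agent.H86.BC2

open Pool.Agent.R941.BC (W W_sub W_ext W_le)
open Pool.Agent.H86.BCP
open Pool.Agent.H34.PT (cg Vt Deg)

variable {B : ∀ (G : Type) [Group G], Prop}

/-- the group acts on a tree without inversions, with vertex stabilizers in `W B` -/
def TreeIn (B : ∀ (G : Type) [Group G], Prop) (T : Type) [Group T] : Prop :=
  ∃ (V : Type) (_ : MulAction T V) (X : SimpleGraph V), X.IsTree ∧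
    (∀ (g : T) (u v : V), X.Adj u v → X.Adj (g • u) (g • v)) ∧
    (∀ (g : T) (u v : V), X.Adj u v → ¬ (g • u = v ∧ g • v = u)) ∧
    ∀ v : V, W B (MulAction.stabilizer T v)

/-- **products of groups acting on trees** -/
theorem multi (h : InheritBC B) {ι : Type} [Finite ι] (T : ι → Type) [∀ i, Group (T i)]
    (hT : ∀ i, TreeIn B (T i)) {G : Type} [Group G] [Countable G] (f : G →* ∀ i, T i)
    (hk : W B f.ker) : B G := by
  choose V act X h1 h2 h3 h4 using hT
  let _ : ∀ i, MulAction G (V i) := fun i =>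
    MulAction.compHom (V i) ((Pi.evalMonoidHom T i).comp f)
  refine trees h V X h1 (fun i g u v => h2 i (f g i) u v) (fun i g u v => h3 i (f g i) u v) ?_
  intro v S hS
  let Φ : S →* ∀ i, MulAction.stabilizer (T i) (v i) :=
    MonoidHom.pi fun i => (((Pi.evalMonoidHom T i).comp f).comp S.subtype).codRestrict _
      fun g => hS g.1 g.2 i
  refine W_le S (W_hom h Φ ?_ (W_pi h _ _ fun i => h4 i (v i)))
  refine W_sub _ f.ker ((S.subtype.comp Φ.ker.subtype).codRestrict f.ker ?_) ?_ hk
  · intro g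
    show f g.1.1 = 1
    funext i
    exact congrArg Subtype.val (congrFun g.2 i)
  · intro x y hxy
    exact Subtype.ext (Subtype.ext (congrArg (fun z : f.ker => (z : G)) hxy))

theorem treeIn_of_deg {T : Type} [Group T] {A E : Subgroup T} {n m : T → ℕ}
    (hD : Deg A E n m) (hA : W B A) (hE : W B E) : TreeIn B T := by
  refine ⟨Vt A E, inferInstance, cg A E, hD.isTree, hD.treeAct.adj, hD.treeAct.noInv, ?_⟩
  rintro (x | x)
  · obtain ⟨g, rfl⟩ := QuotientGroup.mk_surjective x
    have h1 : ∀ u : MulAction.stabilizer T (Sum.inl (g : T ⧸ A) : Vt A E),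
        g⁻¹ * u.1 * g ∈ A := by
      rintro ⟨u, hu⟩
      have h2 : (Sum.inl ((u * g : T) : T ⧸ A) : Vt A E) = Sum.inl (g : T ⧸ A) := hu
      have h3 := Sum.inl.inj h2
      rw [eq_comm, QuotientGroup.eq] at h3
      rw [mul_assoc]
      exact h3
    refine W_sub _ _ (MonoidHom.mk' (fun u => (⟨_, h1 u⟩ : A)) ?_) ?_ hA
    · intro u v
      refine Subtype.ext ?_
      show g⁻¹ * (u.1 * v.1) * g = (g⁻¹ * u.1 * g) * (g⁻¹ * v.1 * g)
      group
    · intro u v huv
      have h3 : g⁻¹ * u.1 * g = g⁻¹ * v.1 * g := congrArg Subtype.val huv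
      exact Subtype.ext (mul_left_cancel (mul_right_cancel h3))
  · obtain ⟨g, rfl⟩ := QuotientGroup.mk_surjective x
    have h1 : ∀ u : MulAction.stabilizer T (Sum.inr (g : T ⧸ E) : Vt A E),
        g⁻¹ * u.1 * g ∈ E := by
      rintro ⟨u, hu⟩
      have h2 : (Sum.inr ((u * g : T) : T ⧸ E) : Vt A E) = Sum.inr (g : T ⧸ E) := hu
      have h3 := Sum.inr.inj h2
      rw [eq_comm, QuotientGroup.eq] at h3
      rw [mul_assoc]
      exact h3
    refine W_sub _ _ (MonoidHom.mk' (fun u => (⟨_, h1 u⟩ : E)) ?_) ?_ hE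
    · intro u v
      refine Subtype.ext ?_
      show g⁻¹ * (u.1 * v.1) * g = (g⁻¹ * u.1 * g) * (g⁻¹ * v.1 * g)
      group
    · intro u v huv
      have h3 : g⁻¹ * u.1 * g = g⁻¹ * v.1 * g := congrArg Subtype.val huv
      exact Subtype.ext (mul_left_cancel (mul_right_cancel h3))

end Pool.Agent.H86.BC2
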